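import Pool.Agent.L0h95.AZ.Red

/-!
# Groups without infinite cyclic quotients and finite abelianizations
-/

set_option autoImplicit false

namespace Pool.Agent.L0h95.AZ

theorem ni_of_finite (K : Type) [Group K] (h : Finite (Abelianization K)) : NI K := by
  intro φ k
  have h1 : Abelianization.lift φ (Abelianization.of k) = φ k := Abelianization.lift_apply_of φ k
  obtain ⟨n, hn, hx⟩ := isOfFinOrder_iff_pow_eq_one.1
    (isOfFinOrder_of_finite (Abelianization.of k))
  have h2 : (φ k) ^ n = 1 := by rw [← h1, ← map_pow, hx, map_one]
  have h3 : (n : ℤ) * Multiplicative.toAdd (φ k) = 0 := by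
    have := congrArg Multiplicative.toAdd h2
    rw [toAdd_pow, toAdd_one] at this
    simpa using this
  have h4 : Multiplicative.toAdd (φ k) = 0 := by
    rcases mul_eq_zero.1 h3 with h | h
    · omega
    · exact h
  exact Multiplicative.toAdd.injective h4

theorem finite_of_ni (K : Type) [Group K] (hfg : Group.FG K) (h : NI K) :
    Finite (Abelianization K) := by
  let M := Additive (Abelianization K)
  haveI : Group.FG (Abelianization K) :=
    Group.fg_of_surjective (f := Abelianization.of) (QuotientGroup.mk'_surjective _)
  haveI : AddGroup.FG M := inferInstance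
  haveI : Module.Finite ℤ M := Module.Finite.iff_addGroup_fg.2 inferInstance
  -- the quotient by the torsion
  let T := Submodule.torsion ℤ M
  haveI : Module.Finite ℤ (M ⧸ T) := inferInstance
  haveI : Module.IsTorsionFree ℤ (M ⧸ T) := inferInstance
  haveI : Module.Free ℤ (M ⧸ T) := inferInstance
  have hzero : ∀ m : M, m ∈ T := by
    intro m
    rw [← Submodule.Quotient.mk_eq_zero]
    let b := Module.Free.chooseBasis ℤ (M ⧸ T)
    apply b.ext_elem
    intro i
    rw [map_zero, Finsupp.zero_apply]
    let ψ : M →+ ℤ := ((b.coord i).comp T.mkQ).toAddMonoidHom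
    let φ : K →* Multiplicative ℤ := (AddMonoidHom.toMultiplicativeRight ψ).comp Abelianization.of
    obtain ⟨k, hk⟩ : ∃ k : K, Additive.ofMul (Abelianization.of k) = m := by
      obtain ⟨k, hk⟩ := QuotientGroup.mk'_surjective _ (Additive.toMul m)
      exact ⟨k, by
        change Additive.ofMul (QuotientGroup.mk' _ k) = m
        rw [hk]; rfl⟩
    have h1 := h φ k
    have h2 : ψ (Additive.ofMul (Abelianization.of k)) = 0 := by
      have := congrArg Multiplicative.toAdd h1
      exact this
    rw [hk] at h2
    exact h2
  have htors : Module.IsTorsion ℤ M := by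
    intro m
    exact (Submodule.mem_torsion_iff m).1 (hzero m)
  haveI : Finite M := Module.finite_of_fg_torsion M htors
  exact Finite.of_equiv M Additive.toMul

end Pool.Agent.L0h95.AZ
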