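import Pool.Agent.R941.AE.Conv
import Pool.Agent.W649.ZL.Lead
import Pool.Agent.W649.ZL.Supp

/-!
# Kernel dimensions and parts of the support with finite abelianization
-/

set_option autoImplicit false

open Pool.Agent.W649.ZL (vd cop EE Ltr LI)

namespace Pool.Agent.L0h95.AZ

/-- the subgroup generated by the quotients of the elements of `F` -/
def quo {G : Type} [Group G] (F : Finset G) : Subgroup G :=
  Subgroup.closure {g | ∃ x ∈ F, ∃ y ∈ F, g = x⁻¹ * y}

/-- the kernel dimension -/
noncomputable def kd {G : Type} [Group G] (α : G →₀ ℂ) : ℝ :=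
  vd (LinearMap.ker (cop α : EE G Unit →ₗ[ℂ] EE G Unit))

/-- the part of `α` on the finite set `F` -/
noncomputable def part {G : Type} [Group G] (α : G →₀ ℂ) (F : Finset G) : G →₀ ℂ := by
  classical
  exact α.filter (fun x => x ∈ F)

/-- no nontrivial homomorphism to the integers -/
def NI (K : Type) [Group K] : Prop := ∀ (φ : K →* Multiplicative ℤ) (k : K), φ k = 1

variable {G : Type} [Group G]

theorem part_pos (α : G →₀ ℂ) (F : Finset G) {x : G} (h : x ∈ F) : part α F x = α x := by
  classical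
  unfold part
  exact Finsupp.filter_apply_pos _ _ h

theorem part_neg (α : G →₀ ℂ) (F : Finset G) {x : G} (h : x ∉ F) : part α F x = 0 := by
  classical
  unfold part
  exact Finsupp.filter_apply_neg _ _ h

theorem kd_eq (α : G →₀ ℂ) : kd α = Pool.Agent.R941.AE.kdim α :=
  (Pool.Agent.W649.ZL.kerDim_eq_vd α).symm

theorem kd_push {G' : Type} [Group G'] (f : G →* G') (hf : Function.Injective f)
    (α : G →₀ ℂ) : kd (α.mapDomain f) = kd α := by
  rw [kd_eq, kd_eq, Pool.Agent.R941.AE.kdim_push f hf]

theorem kd_translate (t : G) (α : G →₀ ℂ) : kd (α.mapDomain (fun x => t * x)) = kd α := by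
  unfold kd
  rw [Pool.Agent.W649.ZL.cop_mapDomain]
  congr 1
  ext f
  rw [LinearMap.mem_ker, LinearMap.mem_ker]
  constructor
  · intro h
    apply Pool.Agent.W649.ZL.Ltr_injective t
    exact h.trans (map_zero _).symm
  · intro h
    change Ltr t (cop α f) = 0
    have h' : cop α f = 0 := h
    rw [h', map_zero]

theorem kd_ext (K : Subgroup G) (t : G) (γ : K →₀ ℂ) :
    kd (γ.mapDomain (fun k : K => t * (k : G))) = kd γ := by
  have h : (fun k : K => t * (k : G)) = (fun x => t * x) ∘ (K.subtype : K → G) := rfl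
  rw [h, Finsupp.mapDomain_comp, kd_translate]
  exact kd_push K.subtype K.subtype_injective γ

theorem ext_inj (K : Subgroup G) (t : G) : Function.Injective (fun k : K => t * (k : G)) := by
  intro a b h
  exact Subtype.ext (mul_left_cancel h)

/-- the restriction to a coset -/
noncomputable def res (K : Subgroup G) (t : G) (α : G →₀ ℂ) : K →₀ ℂ :=
  α.comapDomain (fun k : K => t * (k : G)) (ext_inj K t).injOn

theorem res_apply (K : Subgroup G) (t : G) (α : G →₀ ℂ) (k : K) : res K t α k = α (t * k) := rfl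

theorem map_res (K : Subgroup G) (t : G) (α : G →₀ ℂ) (h : ∀ x ∈ α.support, t⁻¹ * x ∈ K) :
    (res K t α).mapDomain (fun k : K => t * (k : G)) = α := by
  apply Finsupp.mapDomain_comapDomain _ (ext_inj K t)
  intro x hx
  exact ⟨⟨t⁻¹ * x, h x hx⟩, by simp⟩

theorem kd_res (K : Subgroup G) (t : G) (α : G →₀ ℂ) (h : ∀ x ∈ α.support, t⁻¹ * x ∈ K) :
    kd (res K t α) = kd α := by
  rw [← kd_ext K t, map_res K t α h]

theorem mem_quo {F : Finset G} {x y : G} (hx : x ∈ F) (hy : y ∈ F) : x⁻¹ * y ∈ quo F :=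
  Subgroup.subset_closure ⟨x, hx, y, hy, rfl⟩

/-- the lowest part -/
theorem lead_part (α : G →₀ ℂ) (t : G) (K : Subgroup G) (h : ∀ x ∈ α.support, t⁻¹ * x ∈ K)
    (e : K → ℤ) (he : ∀ x y, e (x * y) = e x + e y) (m : ℤ)
    (hm : ∀ (x : G) (hx : x ∈ α.support), m ≤ e ⟨t⁻¹ * x, h x hx⟩) (F : Finset G)
    (hF : ∀ x, x ∈ F ↔ ∃ hx : x ∈ α.support, e ⟨t⁻¹ * x, h x hx⟩ = m) :
    kd α ≤ kd (part α F) := by
  classical
  have h1 := Pool.Agent.W649.ZL.lead e he (res K t α) m (by
    intro k hk
    have hk' : t * (k : G) ∈ α.support := by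
      rw [Finsupp.mem_support_iff] at hk ⊢
      exact hk
    have := hm _ hk'
    have hkk : (⟨t⁻¹ * (t * (k : G)), h _ hk'⟩ : K) = k := by
      apply Subtype.ext
      simp
    rw [hkk] at this
    exact this)
  have h2 : kd (res K t α) = kd α := kd_res K t α h
  have h3 : (res K t α).filter (fun k => e k = m) = res K t (part α F) := by
    ext k
    rw [res_apply, Finsupp.filter_apply, res_apply]
    by_cases hk : t * (k : G) ∈ α.support
    · have hkk : (⟨t⁻¹ * (t * (k : G)), h _ hk⟩ : K) = k := by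
        apply Subtype.ext
        simp
      by_cases hek : e k = m
      · rw [if_pos hek, part_pos]
        rw [hF]
        exact ⟨hk, by rw [hkk]; exact hek⟩
      · rw [if_neg hek, part_neg]
        rw [hF]
        rintro ⟨h5, h6⟩
        rw [hkk] at h6
        exact hek h6
    · have h0 : α (t * (k : G)) = 0 := Finsupp.notMem_support_iff.1 hk
      have h1 : part α F (t * (k : G)) = 0 := by
        by_cases hx : t * (k : G) ∈ F
        · rw [part_pos _ _ hx, h0]
        · rw [part_neg _ _ hx]
      rw [h0, h1, ite_self]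
  change kd (res K t α) ≤ kd ((res K t α).filter (fun k => e k = m)) at h1
  rw [h2, h3, kd_res K t] at h1
  · exact h1
  · intro x hx
    apply h
    by_cases hxF : x ∈ F
    · rw [Finsupp.mem_support_iff, part_pos _ _ hxF] at hx
      exact Finsupp.mem_support_iff.2 hx
    · rw [Finsupp.mem_support_iff, part_neg _ _ hxF] at hx
      exact absurd rfl hx

theorem half (α : G →₀ ℂ) (hα : α ≠ 0) (φ : quo α.support →* Multiplicative ℤ)
    (k0 : quo α.support) (hk0 : φ k0 ≠ 1) :
    ∃ F ⊆ α.support, F.Nonempty ∧ 2 * F.card ≤ α.support.card ∧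
      kd α ≤ kd (part α F) := by
  classical
  obtain ⟨t, ht⟩ := Finsupp.support_nonempty_iff.2 hα
  have h : ∀ x ∈ α.support, t⁻¹ * x ∈ quo α.support := fun x hx => mem_quo ht hx
  let e : quo α.support → ℤ := fun k => Multiplicative.toAdd (φ k)
  have he : ∀ x y, e (x * y) = e x + e y := by
    intro x y
    simp only [e]
    rw [map_mul, toAdd_mul]
  let e' : G → ℤ := fun x => if hx : t⁻¹ * x ∈ quo α.support then e ⟨t⁻¹ * x, hx⟩ else 0
  have he' : ∀ (x : G) (hx : x ∈ α.support), e' x = e ⟨t⁻¹ * x, h x hx⟩ := by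
    intro x hx
    simp only [e']
    rw [dif_pos (h x hx)]
  obtain ⟨x1, hx1, hmin⟩ := Finset.exists_min_image α.support e' ⟨t, ht⟩
  obtain ⟨x2, hx2, hmax⟩ := Finset.exists_max_image α.support e' ⟨t, ht⟩
  have hne : e' x1 ≠ e' x2 := by
    intro heq
    have hconst : ∀ x ∈ α.support, e' x = e' x1 := fun x hx =>
      le_antisymm ((hmax x hx).trans heq.symm.le) (hmin x hx)
    have hker : quo α.support ≤ (φ.ker).map (quo α.support).subtype := by
      refine (Subgroup.closure_le _).2 ?_
      rintro g ⟨x, hx, y, hy, rfl⟩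
      refine ⟨⟨x⁻¹ * y, mem_quo hx hy⟩, ?_, rfl⟩
      have h1 : e ⟨t⁻¹ * y, h y hy⟩ = e ⟨t⁻¹ * x, h x hx⟩ + e ⟨x⁻¹ * y, mem_quo hx hy⟩ := by
        rw [← he]
        congr 1
        apply Subtype.ext
        change t⁻¹ * y = (t⁻¹ * x) * (x⁻¹ * y)
        group
      rw [← he' y hy, ← he' x hx, hconst x hx, hconst y hy] at h1
      have h2 : e ⟨x⁻¹ * y, mem_quo hx hy⟩ = 0 := by omega
      change φ _ = 1
      exact Multiplicative.toAdd.injective h2
    obtain ⟨k1, hk1, hk2⟩ := hker k0.2
    apply hk0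
    have : k1 = k0 := Subtype.ext hk2
    rw [← this]
    exact hk1
  have hlt : e' x1 < e' x2 := lt_of_le_of_ne (hmin x2 hx2) hne
  set F1 := α.support.filter (fun x => e' x = e' x1) with hF1
  set F2 := α.support.filter (fun x => e' x = e' x2) with hF2
  have hdisj : Disjoint F1 F2 := by
    rw [Finset.disjoint_left]
    intro x h1 h2
    rw [hF1, Finset.mem_filter] at h1
    rw [hF2, Finset.mem_filter] at h2
    exact hne (h1.2.symm.trans h2.2)
  have hcard : F1.card + F2.card ≤ α.support.card := by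
    rw [← Finset.card_union_of_disjoint hdisj]
    exact Finset.card_le_card (Finset.union_subset (Finset.filter_subset _ _)
      (Finset.filter_subset _ _))
  have hk1 : kd α ≤ kd (part α F1) := by
    refine lead_part α t (quo α.support) h e he (e' x1) (fun x hx => ?_) F1 (fun x => ?_)
    · rw [← he' x hx]; exact hmin x hx
    · rw [hF1, Finset.mem_filter]
      constructor
      · rintro ⟨h1, h2⟩
        exact ⟨h1, by rw [← he' x h1]; exact h2⟩
      · rintro ⟨h1, h2⟩
        exact ⟨h1, by rw [he' x h1]; exact h2⟩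
  have hk2 : kd α ≤ kd (part α F2) := by
    refine lead_part α t (quo α.support) h (fun k => - e k) (fun x y => by rw [he]; ring) (- e' x2)
      (fun x hx => ?_) F2 (fun x => ?_)
    · rw [← he' x hx]; exact neg_le_neg (hmax x hx)
    · rw [hF2, Finset.mem_filter]
      constructor
      · rintro ⟨h1, h2⟩
        exact ⟨h1, by rw [← he' x h1, h2]⟩
      · rintro ⟨h1, h2⟩
        refine ⟨h1, ?_⟩
        rw [he' x h1]
        exact neg_injective h2
  by_cases hc : 2 * F1.card ≤ α.support.card
  · exact ⟨F1, Finset.filter_subset _ _, ⟨x1, by rw [hF1, Finset.mem_filter]; exact ⟨hx1, rfl⟩⟩,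
      hc, hk1⟩
  · exact ⟨F2, Finset.filter_subset _ _, ⟨x2, by rw [hF2, Finset.mem_filter]; exact ⟨hx2, rfl⟩⟩,
      by omega, hk2⟩

theorem filter_support (α : G →₀ ℂ) (F : Finset G) (hF : F ⊆ α.support) :
    (part α F).support = F := by
  ext x
  rw [Finsupp.mem_support_iff]
  by_cases hx : x ∈ F
  · rw [part_pos α F hx]
    exact ⟨fun _ => hx, fun _ => Finsupp.mem_support_iff.1 (hF hx)⟩
  · rw [part_neg α F hx]
    exact ⟨fun h => absurd rfl h, fun h => absurd h hx⟩

theorem filter_filter (α : G →₀ ℂ) (F F' : Finset G) (h : F' ⊆ F) :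
    part (part α F) F' = part α F' := by
  ext x
  by_cases hx : x ∈ F'
  · rw [part_pos _ _ hx, part_pos _ _ hx, part_pos _ _ (h hx)]
  · rw [part_neg _ _ hx, part_neg _ _ hx]

theorem filter_self (α : G →₀ ℂ) : part α α.support = α := by
  ext x
  by_cases hx : x ∈ α.support
  · rw [part_pos _ _ hx]
  · rw [part_neg _ _ hx]
    exact (Finsupp.notMem_support_iff.1 hx).symm

/-- the main reduction -/
theorem main (n : ℕ) : ∀ α : G →₀ ℂ, α ≠ 0 → α.support.card = n →
    ∃ F ⊆ α.support, F.Nonempty ∧ NI (quo F) ∧ kd α ≤ kd (part α F) ∧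
      (¬ NI (quo α.support) → 2 * F.card ≤ α.support.card) := by
  induction n using Nat.strong_induction_on with
  | _ n ih =>
    intro α hα hcard
    by_cases hNI : NI (quo α.support)
    · exact ⟨α.support, Finset.Subset.refl _, Finsupp.support_nonempty_iff.2 hα, hNI,
        by rw [filter_self], fun h => absurd hNI h⟩
    · have hNI' := hNI
      unfold NI at hNI'
      push Not at hNI'
      obtain ⟨φ, k0, hk0⟩ := hNI'
      obtain ⟨F, hF, hFne, hF2, hFk⟩ := half α hα φ k0 hk0
      have hs := filter_support α F hF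
      have hne : part α F ≠ 0 := by
        rw [← Finsupp.support_nonempty_iff, hs]
        exact hFne
      have hlt : (part α F).support.card < n := by
        rw [hs, ← hcard]
        have := hFne.card_pos
        omega
      obtain ⟨F', hF', hF'ne, hF'NI, hF'k, -⟩ := ih _ hlt _ hne rfl
      rw [hs] at hF'
      rw [filter_filter α F F' hF'] at hF'k
      refine ⟨F', hF'.trans hF, hF'ne, hF'NI, hFk.trans hF'k, fun _ => ?_⟩
      have := Finset.card_le_card hF'
      omega

end Pool.Agent.L0h95.AZ
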